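import Pool.Agent.Helper89.Wav.NA

/-!
# Cut-offs in the closed span of a part of a Hilbert basis, and vanishing on thin sets
-/

open MeasureTheory
open scoped FourierTransform RealInnerProductSpace Matrix ENNReal ComplexConjugate

noncomputable section

namespace Wav

/-- The restriction of a square integrable function to a measurable set. -/
def cutLp {n : ℕ} {H : Set (E n)} (hH : MeasurableSet H)
    (g : Lp ℂ 2 (volume : Measure (E n))) : Lp ℂ 2 (volume : Measure (E n)) :=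
  ((Lp.memLp g).indicator hH).toLp (H.indicator (g : E n → ℂ))

theorem cutLp_coe {n : ℕ} {H : Set (E n)} (hH : MeasurableSet H)
    (g : Lp ℂ 2 (volume : Measure (E n))) :
    (cutLp hH g : E n → ℂ) =ᵐ[volume] H.indicator (g : E n → ℂ) :=
  MemLp.coeFn_toLp _

theorem inner_eq_int {n : ℕ} (g h : Lp ℂ 2 (volume : Measure (E n))) :
    inner ℂ g h = ∫ ξ, conj ((g : E n → ℂ) ξ) * (h : E n → ℂ) ξ := by
  rw [L2.inner_def]
  apply integral_congr_ae
  filter_upwards with ξ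
  rw [RCLike.inner_apply, mul_comm]

theorem inner_cutLp {n : ℕ} {H : Set (E n)} (hH : MeasurableSet H)
    (g h : Lp ℂ 2 (volume : Measure (E n))) :
    inner ℂ (cutLp hH g) h = ∫ ξ in H, conj ((g : E n → ℂ) ξ) * (h : E n → ℂ) ξ := by
  rw [inner_eq_int, ← integral_indicator hH]
  apply integral_congr_ae
  filter_upwards [cutLp_coe hH g] with ξ hξ
  rw [hξ]
  by_cases h1 : ξ ∈ H
  · rw [Set.indicator_of_mem h1, Set.indicator_of_mem h1]
  · rw [Set.indicator_of_notMem h1, Set.indicator_of_notMem h1, map_zero, zero_mul]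

theorem inner_cutLp' {n : ℕ} {H : Set (E n)} (hH : MeasurableSet H)
    (g h : Lp ℂ 2 (volume : Measure (E n))) :
    inner ℂ g (cutLp hH h) = ∫ ξ in H, conj ((g : E n → ℂ) ξ) * (h : E n → ℂ) ξ := by
  rw [inner_eq_int, ← integral_indicator hH]
  apply integral_congr_ae
  filter_upwards [cutLp_coe hH h] with ξ hξ
  rw [hξ]
  by_cases h1 : ξ ∈ H
  · rw [Set.indicator_of_mem h1, Set.indicator_of_mem h1]
  · rw [Set.indicator_of_notMem h1, Set.indicator_of_notMem h1, mul_zero]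

/-- Module NE. -/
theorem cut_invariance {n : ℕ} {ι : Type*}
    (b : HilbertBasis ι ℂ (Lp ℂ 2 (volume : Measure (E n)))) (J : Set ι)
    {H : Set (E n)} (hH : MeasurableSet H)
    (horth : ∀ i ∈ J, ∀ j ∉ J, ∫ ξ in H, conj ((b i : E n → ℂ) ξ) * (b j : E n → ℂ) ξ = 0)
    (f : Lp ℂ 2 (volume : Measure (E n)))
    (hf : ∀ j ∉ J, ∫ ξ, conj ((b j : E n → ℂ) ξ) * (f : E n → ℂ) ξ = 0) :
    ∀ j ∉ J, ∫ ξ in H, conj ((b j : E n → ℂ) ξ) * (f : E n → ℂ) ξ = 0 := by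
  intro j hj
  have h1 := b.hasSum_repr f
  have h2 := (innerSL ℂ (cutLp hH (b j))).hasSum h1
  have h3 : ∀ i, (innerSL ℂ (cutLp hH (b j))) (b.repr f i • b i) = 0 := by
    intro i
    rw [map_smul]
    by_cases hi : i ∈ J
    · have h4 : (innerSL ℂ (cutLp hH (b j))) (b i) = 0 := by
        rw [innerSL_apply_apply, ← inner_conj_symm, inner_cutLp', horth i hi j hj, map_zero]
      rw [h4, smul_zero]
    · have h4 : b.repr f i = 0 := by
        rw [b.repr_apply_apply, inner_eq_int, hf i hi]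
      rw [h4, zero_smul]
  simp only [h3] at h2
  have h4 := h2.unique hasSum_zero
  rw [innerSL_apply_apply, inner_cutLp] at h4
  exact h4

theorem enorm_sq_eq_lintegral {n : ℕ} (g : Lp ℂ 2 (volume : Measure (E n))) :
    ‖g‖ₑ ^ 2 = ∫⁻ ξ, ‖(g : E n → ℂ) ξ‖ₑ ^ 2 := by
  rw [Lp.enorm_def, eLpNorm_eq_lintegral_rpow_enorm_toReal (by norm_num) (by norm_num)]
  rw [← ENNReal.rpow_two, ← ENNReal.rpow_mul]
  norm_num

theorem parseval_enorm {n : ℕ} {ι : Type*}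
    (b : HilbertBasis ι ℂ (Lp ℂ 2 (volume : Measure (E n))))
    (g : Lp ℂ 2 (volume : Measure (E n))) :
    ∑' i, ‖inner ℂ (b i) g‖ₑ ^ 2 = ‖g‖ₑ ^ 2 := by
  have h1 := b.hasSum_inner_mul_inner g g
  have h2 : ∀ i, inner ℂ g (b i) * inner ℂ (b i) g = ((‖inner ℂ (b i) g‖ ^ 2 : ℝ) : ℂ) := by
    intro i
    rw [← inner_conj_symm g (b i)]
    rw [mul_comm, RCLike.mul_conj]
    norm_cast
  simp only [h2] at h1
  have h3 : (inner ℂ g g : ℂ) = ((‖g‖ ^ 2 : ℝ) : ℂ) := by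
    rw [inner_self_eq_norm_sq_to_K]
    norm_cast
  rw [h3] at h1
  have h4 : HasSum (fun i => ‖inner ℂ (b i) g‖ ^ 2) (‖g‖ ^ 2) := by
    exact_mod_cast h1
  have h5 := ENNReal.ofReal_tsum_of_nonneg (fun i => sq_nonneg ‖inner ℂ (b i) g‖) h4.summable
  rw [h4.tsum_eq] at h5
  have h6 : ∀ x : ℝ, 0 ≤ x → ENNReal.ofReal (x ^ 2) = ENNReal.ofReal x ^ 2 := fun x hx =>
    ENNReal.ofReal_pow hx 2
  rw [h6 _ (norm_nonneg _), ofReal_norm] at h5
  rw [h5]
  congr 1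
  funext i
  rw [h6 _ (norm_nonneg _), ofReal_norm]

/-- Module NF. -/
theorem slab_zero {n L : ℕ} {A : Matrix (Fin n) (Fin n) ℝ} (hA : A.det ≠ 0)
    {Ψ : Fin L → E n → ℂ} (hΨc : ∀ l, Continuous (Ψ l))
    (b : HilbertBasis (Fin L × ℤ × (Fin n → ℤ)) ℂ (Lp ℂ 2 (volume : Measure (E n))))
    (hb : ∀ l j k, (b (l, j, k) : E n → ℂ) =ᵐ[volume] faff A (Ψ l) j k)
    (F : Set ℤ) {S : Set (E n)} (hS : MeasurableSet S)
    (hinv : ∀ l, ∀ i ∈ F, ∀ k l', ∀ j ∉ F, ∀ k',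
      ∫ ξ in S, conj (faff A (Ψ l) i k ξ) * faff A (Ψ l') j k' ξ = 0)
    {C : ℝ≥0∞} (hC : C ≠ ∞)
    (hlat : ∀ l (T : Set (E n)) (a : ℝ≥0∞), (∀ ξ ∈ T, ‖Ψ l ξ‖ₑ ≤ a) → ∀ η : E n,
      ∑' m : Fin n → ℤ, T.indicator (fun ξ => ‖Ψ l ξ‖ₑ ^ 2) (η + ivec m) ≤ C * a)
    (a : ℤ → ℝ≥0∞) (ha : ∀ l, ∀ j ∈ F, ∀ ξ ∈ S, ‖Ψ l (act (Aᵀ ^ (-j)) ξ)‖ₑ ≤ a j)
    (hsmall : (L : ℝ≥0∞) * C * ∑' j, a j < 1)
    (f : Lp ℂ 2 (volume : Measure (E n)))
    (hf : ∀ l j k, j ∉ F → ∫ ξ, conj (faff A (Ψ l) j k ξ) * (f : E n → ℂ) ξ = 0) :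
    ∀ᵐ ξ : E n, ξ ∈ S → (f : E n → ℂ) ξ = 0 := by
  classical
  set g := cutLp hS f with hg
  have hgc := cutLp_coe hS f
  rw [← hg] at hgc
  -- coefficients
  have hcoef : ∀ l j k, inner ℂ (b (l, j, k)) g =
      ∫ ξ, conj (faff A (Ψ l) j k ξ) * (g : E n → ℂ) ξ := by
    intro l j k
    rw [inner_eq_int]
    apply integral_congr_ae
    filter_upwards [hb l j k] with ξ hξ
    rw [hξ]
  have hzero : ∀ l j k, j ∉ F → inner ℂ (b (l, j, k)) g = 0 := by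
    intro l j k hj
    rw [hg, inner_cutLp']
    refine cut_invariance b {p | p.2.1 ∈ F} hS ?_ f ?_ (l, j, k) hj
    · rintro ⟨l1, j1, k1⟩ h1 ⟨l2, j2, k2⟩ h2
      rw [← hinv l1 j1 h1 k1 l2 j2 h2 k2]
      apply integral_congr_ae
      apply ae_restrict_of_ae
      filter_upwards [hb l1 j1 k1, hb l2 j2 k2] with ξ hξ1 hξ2
      rw [hξ1, hξ2]
    · rintro ⟨l2, j2, k2⟩ h2
      rw [← hf l2 j2 k2 h2]
      apply integral_congr_ae
      filter_upwards [hb l2 j2 k2] with ξ hξ2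
      rw [hξ2]
  have hdet : (Aᵀ : Matrix (Fin n) (Fin n) ℝ).det ≠ 0 := by
    rw [Matrix.det_transpose]
    exact hA
  have hgS : ∀ᵐ ξ : E n, ξ ∉ S → (g : E n → ℂ) ξ = 0 := by
    filter_upwards [hgc] with ξ hξ h1
    rw [hξ, Set.indicator_of_notMem h1]
  have hbess : ∀ l, ∀ j ∈ F, ∑' k : Fin n → ℤ, ‖inner ℂ (b (l, j, k)) g‖ₑ ^ 2 ≤
      C * a j * ‖g‖ₑ ^ 2 := by
    intro l j hj
    have hfin : C * a j ≠ ∞ := by
      have h1 : C * a j ≤ (L : ℝ≥0∞) * C * ∑' j, a j := by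
        have h2 : (1 : ℝ≥0∞) ≤ (L : ℝ≥0∞) := by
          have h3 : 1 ≤ L := Nat.succ_le_of_lt (Fin.pos l)
          exact_mod_cast h3
        calc C * a j = 1 * C * a j := by rw [one_mul]
          _ ≤ (L : ℝ≥0∞) * C * ∑' j, a j := by
            gcongr
            exact ENNReal.le_tsum j
      exact ((h1.trans_lt hsmall).trans ENNReal.one_lt_top).ne
    have h1 := bessel_scale hA (hΨc l) j hS (M := C * a j) hfin ?_ (Lp.memLp g) hgS
    · rw [enorm_sq_eq_lintegral]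
      refine le_trans (le_of_eq ?_) h1
      congr 1
      funext k
      rw [hcoef]
    · intro η
      have hact : ∀ x : E n, act (Aᵀ ^ (-j)) (act (Aᵀ ^ j) x) = x := by
        intro x
        rw [← act_mul, ← Matrix.zpow_add (isUnit_iff_ne_zero.2 hdet), neg_add_cancel, zpow_zero,
          act_one]
      have h2 := hlat l (act (Aᵀ ^ j) ⁻¹' S) (a j) (by
        intro ξ hξ
        have h3 := ha l j hj _ hξ
        rw [hact] at h3
        exact h3) η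
      refine le_trans (le_of_eq ?_) h2
      congr 1
      funext m
      by_cases h3 : act (Aᵀ ^ j) (η + ivec m) ∈ S
      · rw [Set.indicator_of_mem h3, Set.indicator_of_mem (show η + ivec m ∈ _ from h3), hact]
      · rw [Set.indicator_of_notMem h3, Set.indicator_of_notMem (show η + ivec m ∉ _ from h3)]
  have hpars := parseval_enorm b g
  have hle : ‖g‖ₑ ^ 2 ≤ (L : ℝ≥0∞) * C * (∑' j, a j) * ‖g‖ₑ ^ 2 := by
    calc ‖g‖ₑ ^ 2 = ∑' i, ‖inner ℂ (b i) g‖ₑ ^ 2 := hpars.symm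
      _ = ∑' l, ∑' p : ℤ × (Fin n → ℤ), ‖inner ℂ (b (l, p)) g‖ₑ ^ 2 := ENNReal.tsum_prod'
      _ ≤ ∑' l : Fin L, C * (∑' j, a j) * ‖g‖ₑ ^ 2 := by
        apply ENNReal.tsum_le_tsum
        intro l
        rw [ENNReal.tsum_prod', ← ENNReal.tsum_mul_left, ← ENNReal.tsum_mul_right]
        apply ENNReal.tsum_le_tsum
        intro j
        by_cases hj : j ∈ F
        · exact hbess l j hj
        · have h1 : ∀ k, ‖inner ℂ (b (l, j, k)) g‖ₑ ^ 2 = 0 := by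
            intro k
            rw [hzero l j k hj]
            simp
          simp only [h1, tsum_zero]
          exact zero_le
      _ = (L : ℝ≥0∞) * C * (∑' j, a j) * ‖g‖ₑ ^ 2 := by
        rw [tsum_fintype, Finset.sum_const, Finset.card_univ, Fintype.card_fin, nsmul_eq_mul]
        ring
  have hg0 : ‖g‖ₑ ^ 2 = 0 := by
    by_contra hne
    have hfin : ‖g‖ₑ ^ 2 ≠ ∞ := ENNReal.pow_ne_top enorm_ne_top
    have h1 : (L : ℝ≥0∞) * C * (∑' j, a j) * ‖g‖ₑ ^ 2 < 1 * ‖g‖ₑ ^ 2 :=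
      ENNReal.mul_lt_mul_left hne hfin hsmall
    rw [one_mul] at h1
    exact absurd hle (not_le.2 h1)
  have hg1 : g = 0 := by
    have h1 : ‖g‖ₑ = 0 := by
      rcases pow_eq_zero_iff (two_ne_zero) |>.1 hg0 with h
      exact h
    exact enorm_eq_zero.1 h1
  have hg2 : (g : E n → ℂ) =ᵐ[volume] 0 := by
    rw [hg1]
    exact Lp.coeFn_zero _ _ _
  filter_upwards [hgc, hg2] with ξ h1 h2 h3
  rw [h1, Set.indicator_of_mem h3] at h2
  exact h2

end Wav
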